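import Pool.Agent.Helper68.QC.St4

/-!
# PART M of project QD, module IF8: `StCVM` and `StNUL`
-/

namespace Pool.Agent.Helper32.QCM

open Pool.Agent.Helper68.QC
open MeasureTheory Set Filter Topology Complex
open scoped ContDiff ComplexConjugate ENNReal

private theorem wd_congr {U : Set ℂ} {f a b a' b' : ℂ → ℂ} (h : WD U f a b)
    (ha : ∀ᵐ z, a z = a' z) (hb : ∀ᵐ z, b z = b' z) : WD U f a' b' := by
  refine ⟨h.cont, ?_, ?_, ?_, ?_⟩
  · intro K hKU hK
    exact (h.l2a K hKU hK).ae_eq (ae_restrict_of_ae ha)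
  · intro K hKU hK
    exact (h.l2b K hKU hK).ae_eq (ae_restrict_of_ae hb)
  · intro φ hφ
    rw [h.dz φ hφ]
    congr 1
    apply integral_congr_ae
    filter_upwards [ha] with z hz
    rw [hz]
  · intro φ hφ
    rw [h.dzb φ hφ]
    congr 1
    apply integral_congr_ae
    filter_upwards [hb] with z hz
    rw [hz]

open Classical in
/-- IF8 -/
theorem pIF8 : StIF8 := by
  intro hNQD hCVX hNUX
  constructor
  · intro k hk μ hμ
    have hk0 : 0 ≤ k := (norm_nonneg _).trans (hμ.le 0)
    obtain ⟨-, ⟨a, b, ha, hb, hQD, hab⟩, hQQ, -⟩ := hNQD k hk μ hμ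
    have hJ : ∀ᵐ z, 0 < jc a b z := (hNUX k (nq μ) hk0 hk hQQ).2 a b hQD
    have ha0 : ∀ᵐ z, a z ≠ 0 := by
      filter_upwards [hJ] with z hz h0
      rw [jc, h0, norm_zero] at hz
      have := sq_nonneg ‖b z‖
      linarith
    let a' : ℂ → ℂ := fun z => if a z = 0 then 1 else a z
    have ha' : ∀ᵐ z, a z = a' z := by
      filter_upwards [ha0] with z hz
      simp only [a', if_neg hz]
    have hb' : ∀ᵐ z, b z = μ z * a' z := by
      filter_upwards [ha', hab] with z hz hz2
      rw [hz2, hz]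
    have hane : ∀ z, a' z ≠ 0 := by
      intro z
      by_cases h : a z = 0
      · simp only [a', if_pos h]
        exact one_ne_zero
      · simp only [a', if_neg h]
        exact h
    have ham : Measurable a' := by
      refine Measurable.ite ?_ measurable_const ha
      exact ha (measurableSet_singleton 0)
    refine ⟨a', fun z => μ z * a' z, wd_congr hQD.wd ha' hb', fun z => rfl, ham, hane, ?_⟩
    intro G hG
    have hcv := hCVX k (nq μ) a b hk0 hk hQD
    have hJm : Measurable (fun z => ENNReal.ofReal (jc a b z)) := by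
      unfold jc
      exact ((ha.norm.pow_const 2).sub (hb.norm.pow_const 2)).ennreal_ofReal
    have hwm : Measurable (nq μ : ℂ → ℂ) := (nq μ).continuous.measurable
    calc ∫⁻ z, G (nq μ z) * ENNReal.ofReal (‖a' z‖ ^ 2 - ‖μ z * a' z‖ ^ 2)
        = ∫⁻ z, ENNReal.ofReal (jc a b z) * G (nq μ z) := by
          apply lintegral_congr_ae
          filter_upwards [ha', hb'] with z h1 h2
          rw [← h2, ← h1, mul_comm, jc]
      _ = ∫⁻ z, G (nq μ z) ∂(volume.withDensity (fun z => ENNReal.ofReal (jc a b z))) := by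
          exact (lintegral_withDensity_eq_lintegral_mul _ hJm (hG.comp hwm)).symm
      _ = ∫⁻ z, G z ∂(Measure.map (nq μ) (volume.withDensity
            (fun z => ENNReal.ofReal (jc a b z)))) := (lintegral_map hG hwm).symm
      _ = ∫⁻ z, G z := by rw [hcv]
  · intro k hk μ hμ E
    have hk0 : 0 ≤ k := (norm_nonneg _).trans (hμ.le 0)
    obtain ⟨-, -, hQQ, -⟩ := hNQD k hk μ hμ
    exact (hNUX k (nq μ) hk0 hk hQQ).1 E

end Pool.Agent.Helper32.QCM
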