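import Pool.Agent.Helper68.QC.St3

/-!
# PART M of project QD, module NQD: the properties of `nq μ`
-/

namespace Pool.Agent.Helper32.QCM

open Pool.Agent.Helper68.QC
open MeasureTheory Set Filter Topology Complex
open scoped ContDiff ComplexConjugate ENNReal

/-- NQD -/
theorem pNQD (hEXS : StEXS) (hUNX : StUNX) : StNQD := by
  intro k hk μ hμ
  have hk0 : 0 ≤ k := (norm_nonneg _).trans (hμ.le 0)
  obtain ⟨w, hw0, hw1, ⟨a, b, ha, hb, hQD, hab⟩, hQQ, hF⟩ := hEXS k hk0 hk μ hμ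
  have hIs : IsNq μ w := ⟨hw0, hw1, ⟨a, b, hQD.wd, ae_restrict_of_ae hab⟩⟩
  have hex : ∃ w : ℂ ≃ₜ ℂ, IsNq μ w := ⟨w, hIs⟩
  have hnq : IsNq μ (nq μ) := by
    rw [nq, dif_pos hex]
    exact hex.choose_spec
  have hwe : nq μ = w := by
    refine hUNX k w (nq μ) a b μ ∅ hQD hab hw0 hw1 hnq.zero hnq.one Set.finite_empty ?_
    rw [compl_empty]
    exact hnq.sol
  rw [hwe]
  exact ⟨hIs, ⟨a, b, ha, hb, hQD, hab⟩, hQQ, hF⟩

end Pool.Agent.Helper32.QCM
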