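import Pool.Agent.Helper68.QC.St4

/-!
# PART M of project QD, module SYY: reflection in the unit circle
-/

namespace Pool.Agent.Helper32.QCM

open Pool.Agent.Helper68.QC
open MeasureTheory Set Filter Topology Complex
open scoped ContDiff ComplexConjugate ENNReal

private theorem mp_conj : MeasurePreserving (fun z : ℂ => conj z) volume volume :=
  Complex.conjLIE.measurePreserving

private theorem emb_conj : MeasurableEmbedding (fun z : ℂ => conj z) :=
  Complex.conjLIE.toHomeomorph.measurableEmbedding

private theorem int_conj (F : ℂ → ℂ) : ∫ z : ℂ, F (conj z) = ∫ z, F z :=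
  mp_conj.integral_comp emb_conj F

private theorem smooth_cc {φ : ℂ → ℂ} (h : ContDiff ℝ ∞ φ) :
    ContDiff ℝ ∞ (fun z => conj (φ (conj z))) :=
  Complex.conjCLE.contDiff.comp (h.comp Complex.conjCLE.contDiff)

private theorem tst_cc {φ : ℂ → ℂ} (h : Tst univ φ) : Tst univ (fun z => conj (φ (conj z))) := by
  refine ⟨smooth_cc h.smooth, ?_, subset_univ _⟩
  have h1 : HasCompactSupport (fun z => φ (conj z)) :=
    h.cpt.comp_homeomorph Complex.conjLIE.toHomeomorph
  exact h1.comp_left (g := fun z : ℂ => conj z) (map_zero _)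

private theorem d_conj (z : ℂ) : dz (fun x : ℂ => conj x) z = 0 ∧
    dzb (fun x : ℂ => conj x) z = 1 := by
  constructor
  · rw [dz_conj differentiableAt_fun_id, dzb_id, map_zero]
  · rw [dzb_conj differentiableAt_fun_id, dz_id, map_one]

private theorem diff_conj (z : ℂ) : DifferentiableAt ℝ (fun x : ℂ => conj x) z :=
  Complex.conjCLE.differentiableAt

private theorem d_cc {φ : ℂ → ℂ} (h : Differentiable ℝ φ) (z : ℂ) :
    dz (fun x => conj (φ (conj x))) z = conj (dz φ (conj z)) ∧
    dzb (fun x => conj (φ (conj x))) z = conj (dzb φ (conj z)) := by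
  have h1 : DifferentiableAt ℝ (fun x : ℂ => φ (conj x)) z :=
    DifferentiableAt.comp z (h _) (diff_conj z)
  have h2 := d_conj z
  constructor
  · rw [dz_conj h1, dzb_comp (h _) (diff_conj z), h2.1, h2.2, map_zero, mul_one, mul_zero,
      add_zero]
  · rw [dzb_conj h1, dz_comp (h _) (diff_conj z), h2.1, h2.2, map_one, mul_one, mul_zero,
      zero_add]

private theorem l2_cc {a : ℂ → ℂ} (h : L2 univ a) : L2 univ (fun z => conj (a (conj z))) := by
  intro K _ hK
  have hK' : IsCompact ((fun z : ℂ => conj z) ⁻¹' K) :=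
    (Complex.conjLIE.toHomeomorph.isCompact_preimage).mpr hK
  have hKK : (fun z : ℂ => conj z) ⁻¹' ((fun z : ℂ => conj z) ⁻¹' K) = K := by
    ext z
    simp
  have h1 := h _ (subset_univ _) hK'
  have hmp := mp_conj.restrict_preimage hK'.measurableSet
  rw [hKK] at hmp
  have h2 : MemLp (fun z => a (conj z)) 2 (volume.restrict K) := h1.comp_measurePreserving hmp
  refine h2.of_le ?_ ?_
  · exact Complex.continuous_conj.comp_aestronglyMeasurable h2.aestronglyMeasurable
  · refine Eventually.of_forall fun z => ?_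
    simp only [RCLike.norm_conj, le_refl]

private theorem wd_cc {w a b : ℂ → ℂ} (h : WD univ w a b) :
    WD univ (fun z => conj (w (conj z))) (fun z => conj (a (conj z)))
      (fun z => conj (b (conj z))) := by
  have hw : Continuous w := continuousOn_univ.mp h.cont
  refine ⟨?_, l2_cc h.l2a, l2_cc h.l2b, ?_, ?_⟩
  · exact (Complex.continuous_conj.comp (hw.comp Complex.continuous_conj)).continuousOn
  · intro φ hφ
    have h1 := h.dz _ (tst_cc hφ)
    have e1 : ∀ z, w z * dz (fun x => conj (φ (conj x))) z = conj (conj (w z) * dz φ (conj z)) := by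
      intro z
      rw [(d_cc hφ.differentiable z).1, map_mul, Complex.conj_conj]
    have e2 : ∀ z, a z * conj (φ (conj z)) = conj (conj (a z) * φ (conj z)) := by
      intro z
      rw [map_mul, Complex.conj_conj]
    simp_rw [e1, e2] at h1
    rw [integral_conj, integral_conj, ← map_neg] at h1
    have h2 := (starRingEnd ℂ).injective h1
    have h3 := int_conj (fun z => conj (w (conj z)) * dz φ z)
    have h4 := int_conj (fun z => conj (a (conj z)) * φ z)
    simp only [Complex.conj_conj] at h3 h4
    rw [← h3, ← h4]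
    exact h2
  · intro φ hφ
    have h1 := h.dzb _ (tst_cc hφ)
    have e1 : ∀ z, w z * dzb (fun x => conj (φ (conj x))) z =
        conj (conj (w z) * dzb φ (conj z)) := by
      intro z
      rw [(d_cc hφ.differentiable z).2, map_mul, Complex.conj_conj]
    have e2 : ∀ z, b z * conj (φ (conj z)) = conj (conj (b z) * φ (conj z)) := by
      intro z
      rw [map_mul, Complex.conj_conj]
    simp_rw [e1, e2] at h1
    rw [integral_conj, integral_conj, ← map_neg] at h1
    have h2 := (starRingEnd ℂ).injective h1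
    have h3 := int_conj (fun z => conj (w (conj z)) * dzb φ z)
    have h4 := int_conj (fun z => conj (b (conj z)) * φ z)
    simp only [Complex.conj_conj] at h3 h4
    rw [← h3, ← h4]
    exact h2

private theorem sol_cc {μ w : ℂ → ℂ} (h : Sol μ univ w) :
    Sol (fun z => conj (μ (conj z))) univ (fun z => conj (w (conj z))) := by
  obtain ⟨a, b, hwd, hab⟩ := h
  refine ⟨_, _, wd_cc hwd, ?_⟩
  rw [Measure.restrict_univ] at hab ⊢
  filter_upwards [mp_conj.quasiMeasurePreserving.ae hab] with z hz
  rw [hz, map_mul]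

/-! ### the reflected homeomorphism -/

private theorem cont_refl (w : ℂ ≃ₜ ℂ) (h0 : w 0 = 0) :
    Continuous (fun z : ℂ => 1 / conj (w (1 / conj z))) := by
  rw [continuous_iff_continuousAt]
  intro z
  by_cases hz : z = 0
  · subst hz
    rw [continuousAt_iff_punctured_nhds]
    have hval : (1 : ℂ) / conj (w (1 / conj (0 : ℂ))) = 0 := by
      simp [h0]
    rw [hval, tendsto_zero_iff_norm_tendsto_zero]
    have e1 : ∀ z : ℂ, ‖(1 : ℂ) / conj (w (1 / conj z))‖ = ‖w (conj z⁻¹)‖⁻¹ := by
      intro z
      have e0 : (1 / conj z : ℂ) = conj z⁻¹ := by rw [map_inv₀, one_div]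
      rw [e0, one_div, norm_inv, RCLike.norm_conj]
    simp_rw [e1]
    apply Filter.Tendsto.inv_tendsto_atTop
    have t1 : Tendsto (fun z : ℂ => z⁻¹) (𝓝[≠] 0) (Bornology.cobounded ℂ) :=
      tendsto_inv₀_nhdsNE_zero
    have t2 : Tendsto (fun z : ℂ => w (conj z)) (cocompact ℂ) (cocompact ℂ) :=
      (Complex.conjLIE.toHomeomorph.trans w).isClosedEmbedding.tendsto_cocompact
    have t3 : Tendsto (fun z : ℂ => ‖z‖) (cocompact ℂ) atTop := tendsto_norm_cocompact_atTop
    rw [Metric.cobounded_eq_cocompact] at t1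
    exact t3.comp (t2.comp t1)
  · have hcz : conj z ≠ 0 := by simpa using hz
    have h1 : ContinuousAt (fun z : ℂ => 1 / conj z) z :=
      continuousAt_const.div Complex.continuous_conj.continuousAt hcz
    have h2 : ContinuousAt (fun z : ℂ => conj (w (1 / conj z))) z :=
      Complex.continuous_conj.continuousAt.comp (w.continuous.continuousAt.comp h1)
    refine continuousAt_const.div h2 ?_
    intro h3
    rw [map_eq_zero] at h3
    have h4 : (1 / conj z : ℂ) = 0 := w.injective (by rw [h3, h0])
    rw [one_div, inv_eq_zero] at h4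
    exact hcz h4

/-- conjugation of a homeomorphism by the reflection in the unit circle -/
private noncomputable def rfl' (w : ℂ ≃ₜ ℂ) (h0 : w 0 = 0) : ℂ ≃ₜ ℂ where
  toFun z := 1 / conj (w (1 / conj z))
  invFun z := 1 / conj (w.symm (1 / conj z))
  left_inv z := by simp
  right_inv z := by simp
  continuous_toFun := cont_refl w h0
  continuous_invFun := cont_refl w.symm (by rw [w.symm_apply_eq, h0])

/-- SYY -/
theorem pSYY : StSYY := by
  intro hEX hUNI hPRE hPOS k hk μ hμ hinv z
  obtain ⟨h0, h1, hsol⟩ := hEX k hk μ hμ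
  have hcc := sol_cc hsol
  have hV : IsOpen ({0}ᶜ : Set ℂ) := isOpen_compl_singleton
  have hder : ∀ z : ℂ, deriv (fun x : ℂ => x⁻¹) z = -(z ^ 2)⁻¹ := fun z => deriv_inv
  have hpre := hPRE (fun z => conj (μ (conj z))) univ {0}ᶜ (fun z => conj (nq μ (conj z)))
    (fun z => z⁻¹) isOpen_univ hV
    (fun z hz => (differentiableAt_inv (by simpa using hz)).differentiableWithinAt)
    inv_injective.injOn (mapsTo_univ _ _)
    (fun z hz => by
      rw [hder]
      have : z ≠ 0 := by simpa using hz
      simp [this]) hcc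
  have hmu : Sol μ {0}ᶜ (fun z => conj (nq μ (conj z⁻¹))) := by
    obtain ⟨a, b, hwd, hab⟩ := hpre
    refine ⟨a, b, hwd, ?_⟩
    filter_upwards [hab, ae_restrict_of_ae hinv, ae_restrict_mem hV.measurableSet] with z hz h2 hzm
    have hz0 : z ≠ 0 := by simpa using hzm
    have hcz : conj z ≠ 0 := by simpa using hz0
    rw [hz]
    congr 1
    simp only [hder]
    have h3 : conj (μ (1 / conj z)) * z ^ 2 = μ z * conj z ^ 2 := by
      have := congrArg (starRingEnd ℂ) h2
      simpa using this
    have e1 : conj (z⁻¹) = 1 / conj z := by rw [map_inv₀, one_div]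
    rw [e1]
    simp only [map_neg, map_inv₀, map_pow]
    rw [neg_div_neg_eq, inv_div_inv, mul_div_assoc', h3]
    field_simp
  have hne : ∀ z : ℂ, z ≠ 0 → conj (nq μ (conj z⁻¹)) ≠ 0 := by
    intro z hz h
    rw [map_eq_zero] at h
    have h4 : (conj z⁻¹ : ℂ) = 0 := (nq μ).injective (by rw [h, h0])
    rw [map_eq_zero, inv_eq_zero] at h4
    exact hz h4
  have hpos := hPOS μ {0}ᶜ {0}ᶜ (fun z => conj (nq μ (conj z⁻¹))) (fun z => z⁻¹) hV hV
    (fun z hz => (differentiableAt_inv (by simpa using hz)).differentiableWithinAt)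
    (fun z hz => by
      have : z ≠ 0 := by simpa using hz
      simpa using hne z this) hmu
  have hf : rfl' (nq μ) h0 = nq μ := by
    refine hUNI k hk μ hμ (rfl' (nq μ) h0) ?_ ?_ {0} (Set.finite_singleton 0) ?_
    · change (1 : ℂ) / conj (nq μ (1 / conj (0 : ℂ))) = 0
      simp [h0]
    · change (1 : ℂ) / conj (nq μ (1 / conj (1 : ℂ))) = 1
      simp [h1]
    · have e1 : (fun z => (conj (nq μ (conj z⁻¹)))⁻¹) = (rfl' (nq μ) h0 : ℂ → ℂ) := by
        funext z
        change _ = (1 : ℂ) / conj (nq μ (1 / conj z))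
        rw [one_div, one_div, map_inv₀]
      rw [← e1]
      exact hpos
  have e2 : (1 : ℂ) / conj (nq μ (1 / conj z)) = nq μ z := by
    have := congrArg (fun h : ℂ ≃ₜ ℂ => h z) hf
    exact this
  rw [← e2]
  simp

end Pool.Agent.Helper32.QCM
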